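import Pool.Agent.FC602.Fin
import Pool.Agent.Results.MP_e17eac_co.NearPolynomial

/-!
# Halving lines after a few changes of the point set

How many bisectors of a point set survive if a few points may be deleted or added? For `t` changes
of a set of `n` points the answer lies between `n (n / t) ^ o(1)` (with the `o(1)` of the best known
lower bound for `f (n / t)`) and `O (n (n / t) ^ (1 / 3))`; in particular a change of one percent of
the points always suffices to make the number of bisectors linear.

`Line`, `GeneralPosition`, `IsBisector` and `f` are defined in `Pool/Agent/KLev/Halving.lean`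
(namespace `KLev.Halving`):

* `Line a b c = {p | a * p.1 + b * p.2 = c}`,
* `GeneralPosition P`: no three distinct points of `P` on a common line,
* `IsBisector P L`: `L` is a line through two distinct points of `P` with exactly
  `|P| / 2 - 1` points of `P` on each open side,
* `f n`: the maximum of the number of bisectors over all `n`-point sets in general position.

The number of changes from `P` to `U` is `|P \ U| + |U \ P|`.
-/

set_option autoImplicit false

namespace Pool.Agent.Results.MP_e17eac_co.FewChanges

open Finset Filter KLev.Halving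

open scoped Classical in
/-- 1. (Deletion.) From every set `P` of `n` points in general position, `n` even, one can delete,
   for every `1 ≤ t ≤ n`, an even number, at most `t`, of points such that the remaining set has at
   most `200 n (n / t) ^ (1 / 3)` bisectors.
2. (Addition.) To every set `P` of `n ≥ 1` points in general position one can add, for every
   `t ≤ n`, exactly `t` points such that the new set is in general position and has at most
   `18 n (n / (t + 1)) ^ (1 / 3) + t` bisectors.
3. (Bisectors that cannot be destroyed.) For all `q` and `M` there is a set `P` of `2 q M` points in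
   general position such that every set `U` in general position with an even number of points has
   at least `f (2 q) (M - 2 (|P \ U| + |U \ P|) - 1)` bisectors.
4. For all large even `m` and all `t` there is a set `P` of `n = (4 t + 3) m` points in general
   position such that every set `U` in general position with an even number of points and
   `|P \ U| + |U \ P| ≤ t` has at least `(n / 2) m ^ exp (-3 √(log log m))` bisectors. -/
theorem result :
    (∀ P : Finset (ℝ × ℝ), GeneralPosition P → Even #P → ∀ t : ℕ, 1 ≤ t → t ≤ #P →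
      ∃ D ⊆ P, #D ≤ t ∧ Even #D ∧
        ({L | IsBisector (P \ D) L}.ncard : ℝ) ≤ 200 * #P * ((#P : ℝ) / t) ^ (1 / 3 : ℝ)) ∧
    (∀ P : Finset (ℝ × ℝ), GeneralPosition P → 1 ≤ #P → ∀ t : ℕ, t ≤ #P →
      ∃ P' : Finset (ℝ × ℝ), P ⊆ P' ∧ GeneralPosition P' ∧ #P' = #P + t ∧
        ({L | IsBisector P' L}.ncard : ℝ) ≤
          18 * #P * ((#P : ℝ) / (t + 1)) ^ (1 / 3 : ℝ) + t) ∧
    (∀ q M : ℕ, ∃ P : Finset (ℝ × ℝ), GeneralPosition P ∧ #P = 2 * q * M ∧
      ∀ U : Finset (ℝ × ℝ), GeneralPosition U → Even #U →
        f (2 * q) * (M - (2 * (#(P \ U) + #(U \ P)) + 1)) ≤ {L | IsBisector U L}.ncard) ∧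
    (∀ᶠ m : ℕ in atTop, Even m → ∀ t : ℕ,
      ∃ P : Finset (ℝ × ℝ), GeneralPosition P ∧ #P = (4 * t + 3) * m ∧
        ∀ U : Finset (ℝ × ℝ), GeneralPosition U → Even #U → #(P \ U) + #(U \ P) ≤ t →
          (#P : ℝ) / 2 * (m : ℝ) ^ Real.exp (-3 * √(Real.log (Real.log m))) ≤
            ({L | IsBisector U L}.ncard : ℝ)) := by
  refine ⟨fun P hP hE t h1 h2 => Pool.Agent.FC602.deletion hP hE h1 h2,
    fun P hP h1 t h2 => Pool.Agent.FC602.insertion hP h1 h2,
    Pool.Agent.FC602.robust_f, ?_⟩
  filter_upwards [Pool.Agent.Results.MP_e17eac_co.NearPolynomial.result, eventually_ge_atTop 1]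
    with m hm hm1 heven t
  obtain ⟨q, hq⟩ := id heven
  have hq2 : m = 2 * q := by omega
  obtain ⟨P, h1, h2, h3⟩ := Pool.Agent.FC602.robust_f q (4 * t + 3)
  refine ⟨P, h1, by rw [h2, hq2]; ring, ?_⟩
  intro U hU hUE hUt
  have h4 := h3 U hU hUE
  have h5 : f (2 * q) * (2 * t + 2) ≤ {L | IsBisector U L}.ncard :=
    (Nat.mul_le_mul_left _ (by omega)).trans h4
  have h6 := hm heven
  have hm0 : (0 : ℝ) < m := by exact_mod_cast hm1
  rw [Real.rpow_add hm0, Real.rpow_one] at h6
  rw [← hq2] at h5
  have h7 : (f m : ℝ) * (2 * t + 2) ≤ ({L | IsBisector U L}.ncard : ℝ) := by exact_mod_cast h5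
  refine le_trans ?_ h7
  have h8 : (#P : ℝ) = (4 * t + 3) * m := by
    rw [h2, hq2]; push_cast; ring
  rw [h8]
  have ht : (0 : ℝ) ≤ t := Nat.cast_nonneg t
  have hx : 0 ≤ (m : ℝ) * (m : ℝ) ^ Real.exp (-3 * √(Real.log (Real.log m))) := by positivity
  calc (4 * (t : ℝ) + 3) * m / 2 * (m : ℝ) ^ Real.exp (-3 * √(Real.log (Real.log m)))
      = (4 * (t : ℝ) + 3) / 2 * (m * (m : ℝ) ^ Real.exp (-3 * √(Real.log (Real.log m)))) := by ring
    _ ≤ (2 * t + 2) * (m * (m : ℝ) ^ Real.exp (-3 * √(Real.log (Real.log m)))) := by
        gcongr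
        linarith
    _ ≤ (2 * t + 2) * f m := by gcongr
    _ = _ := by ring

end Pool.Agent.Results.MP_e17eac_co.FewChanges
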