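import Pool.Agent.Run7.h739.RD.Main

/-!
# The average number of halving lines of the subsets of a point set

Definitions (`Pool/Agent/W296/HL3.lean`, namespace `Pool.Agent.W296.HL`):

* `Line a b c = {p | a * p.1 + b * p.2 = c}`,
* `GeneralPosition P`: no three distinct points of `P` on a common line,
* `IsBisector P L`: `L` is a line through two distinct points of `P` with exactly
  `|P| / 2 - 1` points of `P` on each open side.

Idea of the proof. A pair of points with `j` of the `N - 2` other points below its line is a
halving pair of exactly `C(j, h) C(N - 2 - j, h)` subsets of size `n = 2 h + 2`. These numbers have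
the sum `C(N - 1, n - 1)` over `j`, and the largest of them is the one in the middle, a quotient of
central binomial coefficients of order `C(N, n) (n / N) ^ 2 (N / (n (N - n))) ^ (1 / 2)`. By the
bound of Dey for arbitrary sets of levels (`Pool/Agent/Y344/KD/Win.lean`) and a layer-cake argument
these two norms of the weights bound the weighted number of pairs.
-/

set_option autoImplicit false

open Finset

namespace Pool.Agent.Results.MP_e17eac_co.RandomDeletions

open Pool.Agent.W296.HL

open scoped Classical in
/-- Let `P` be a finite set of points of the plane in general position and `n < |P|` even. The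
average number of bisectors of the subsets of `P` of size `n` is at most
`114 n ^ (7 / 6) (|P| / (|P| - n)) ^ (1 / 6)`. -/
theorem result : ∀ P : Finset (ℝ × ℝ), GeneralPosition P → ∀ n : ℕ, Even n → n < #P →
    ∑ R ∈ P.powersetCard n, ({L | IsBisector R L}.ncard : ℝ) ≤
      114 * ((n : ℝ) ^ (7 / 6 : ℝ) * ((#P : ℝ) / (#P - n)) ^ (1 / 6 : ℝ)) * (#P).choose n := by
  intro P hP n hn hlt
  rcases Nat.eq_zero_or_pos n with rfl | h0
  · rw [powersetCard_zero, sum_singleton]
    have : {L | IsBisector ∅ L} = ∅ := by
      ext L
      rw [Set.mem_ofPred_eq]
      constructor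
      · rintro ⟨a, b, c, -, -, ⟨p, hp, -⟩, -⟩
        exact absurd hp (notMem_empty p)
      · intro h; exact absurd h (Set.notMem_empty L)
    rw [this, Set.ncard_empty]
    have h1 : (0 : ℝ) < #P := by exact_mod_cast hlt
    push_cast
    positivity
  · obtain ⟨k, hk⟩ := hn
    obtain ⟨h, rfl⟩ : ∃ h, n = 2 * h + 2 := ⟨k - 1, by omega⟩
    have := Pool.Agent.Run7.h739.RD.main (gen_of_gp hP) hlt
    push_cast
    exact this

end Pool.Agent.Results.MP_e17eac_co.RandomDeletions
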