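import Pool.Agent.Run7.h726.HL.G5

/-!
# Halving lines of random points

Definitions (in `Pool/Agent/Run7/h726/HL/C.lean` and `G.lean`, namespace `Run7.h726.HL`):

* `Line a b c = {p | a * p.1 + b * p.2 = c}`,
* `IsBisector P L` for a family `P : Fin n → ℝ × ℝ`: `L` is a line through two distinct points of
  the family with exactly `n / 2 - 1` of the points `P 0, …, P (n - 1)` (counted with their
  indices) in each of the two open half-planes bounded by `L`,
* `NoLine μ`: the law `μ` gives mass zero to every line,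
* `expBis μ n`: the expected number of bisectors of `n` independent points with law `μ`.

`KLev.Halving.GeneralPosition`, `KLev.Halving.IsBisector` (for finite sets) and `KLev.Halving.f`
are the notions of the problem (`Pool/Agent/KLev/Halving.lean`).
-/

set_option autoImplicit false

open Finset MeasureTheory Filter
open scoped ENNReal

namespace Pool.Agent.Results.MP_e17eac_co.RandomPoints

open Run7.h726.HL

open scoped Classical in
/-- The maximum over all laws of the expected number of bisectors of `n` independent random points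
is at most `C n ^ (7 / 6)` (all laws) and at least `n ^ (1 + K / (log log n) ^ 3)` for every `K`
(already for laws which charge no line); it is at least `n f(m) / (30 m)` if `m ^ 2 ≤ n`, so that
a bound `C n ^ β` for random points gives `f(m) ≤ 30 C m ^ (2 β - 1)` in the worst case. -/
theorem result :
    (∃ C : ℝ, 0 < C ∧ ∀ (μ : Measure (ℝ × ℝ)) [IsProbabilityMeasure μ] (n : ℕ), Even n →
      expBis μ n ≤ ENNReal.ofReal (C * (n : ℝ) ^ (7 / 6 : ℝ))) ∧
    (∀ K : ℝ, ∀ᶠ n : ℕ in atTop, Even n → ∃ μ : Measure (ℝ × ℝ), IsProbabilityMeasure μ ∧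
      NoLine μ ∧
      ENNReal.ofReal ((n : ℝ) ^ (1 + K / (Real.log (Real.log n)) ^ 3)) ≤ expBis μ n) ∧
    (∀ m n : ℕ, Even m → 0 < m → Even n → m ^ 2 ≤ n → ∃ μ : Measure (ℝ × ℝ),
      IsProbabilityMeasure μ ∧ NoLine μ ∧
      ENNReal.ofReal (n / (30 * m) * KLev.Halving.f m) ≤ expBis μ n) ∧
    (∀ β C : ℝ, 0 ≤ C →
      (∀ μ : Measure (ℝ × ℝ), IsProbabilityMeasure μ → NoLine μ → ∀ n : ℕ, Even n →
        expBis μ n ≤ ENNReal.ofReal (C * (n : ℝ) ^ β)) →
      ∀ m : ℕ, Even m → 0 < m → (KLev.Halving.f m : ℝ) ≤ 30 * C * (m : ℝ) ^ (2 * β - 1)) ∧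
    (∀ (n : ℕ) (P : Fin n → ℝ × ℝ), {L | IsBisector P L}.Finite) ∧
    (∀ (n : ℕ) (P : Fin n → ℝ × ℝ), Function.Injective P → ∀ L : Set (ℝ × ℝ),
      IsBisector P L ↔ KLev.Halving.IsBisector (univ.image P) L) ∧
    (∀ (μ : Measure (ℝ × ℝ)) [IsProbabilityMeasure μ], NoLine μ → ∀ n : ℕ,
      ∀ᵐ P ∂Measure.pi (fun _ : Fin n => μ), Function.Injective P ∧
        KLev.Halving.GeneralPosition (univ.image P)) :=
  ⟨⟨CC, CC_pos, fun μ _ _ hn => main μ hn⟩, random_many,
    fun _ _ hm hm0 hn hmn => lower_f hm hm0 hn hmn,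
    fun _ _ hC h _ hm hm0 => transfer hC h hm hm0, fun _ P => bis_finite P,
    fun _ _ hP L => bis_iff_klev hP L, fun _ _ hμ n => ae_gp hμ n⟩

end Pool.Agent.Results.MP_e17eac_co.RandomPoints
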