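import Pool.Agent.Run7.h249.SM.Rv

/-!
# Smoothed analysis of halving lines

Independent random points with arbitrary different laws dominated by `ρ i × Lebesgue`.
-/

set_option autoImplicit false

namespace Pool.Agent.Results.MP_e17eac_co.SmoothedPoints

open Finset MeasureTheory ProbabilityTheory
open scoped ENNReal

/-- The set of points `(x, y)` of the plane with `a x + b y = c`. -/
def Line (a b c : ℝ) : Set (ℝ × ℝ) := {z | a * z.1 + b * z.2 = c}

/-- General position: no three distinct points of `P` lie on a common line. -/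
def GeneralPosition (P : Finset (ℝ × ℝ)) : Prop :=
  ∀ a b c : ℝ, (a ≠ 0 ∨ b ≠ 0) → ∀ p ∈ P, ∀ q ∈ P, ∀ r ∈ P, p ≠ q → p ≠ r → q ≠ r →
    ¬ (p ∈ Line a b c ∧ q ∈ Line a b c ∧ r ∈ Line a b c)

open scoped Classical in
/-- `L` is a bisector (halving line) of `P`: a line through two points of `P` such that each of
the two open half-planes bounded by it contains exactly `|P| / 2 - 1` points of `P`. -/
def IsBisector (P : Finset (ℝ × ℝ)) (L : Set (ℝ × ℝ)) : Prop :=
  ∃ a b c : ℝ, (a ≠ 0 ∨ b ≠ 0) ∧ L = Line a b c ∧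
    (∃ p ∈ P, ∃ q ∈ P, p ≠ q ∧ p ∈ L ∧ q ∈ L) ∧
    (P.filter (fun p => a * p.1 + b * p.2 < c)).card = P.card / 2 - 1 ∧
    (P.filter (fun p => c < a * p.1 + b * p.2)).card = P.card / 2 - 1

/-- The number of bisectors of the set of the points `p i`. -/
noncomputable def bisectors {n : ℕ} (p : Fin n → ℝ × ℝ) : ℕ :=
  {L | IsBisector (univ.image p) L}.ncard

/-- The indices `l` for which `p l` is strictly below the (non-vertical) line through `p i`, `p j`. -/
def Below {n : ℕ} (p : Fin n → ℝ × ℝ) (i j : Fin n) : Set (Fin n) :=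
  {l | (p l).2 < (p i).2 + ((p j).2 - (p i).2) / ((p j).1 - (p i).1) * ((p l).1 - (p i).1)}

/-- The number of pairs `i < j` with different abscissas such that exactly `k` of the points are
strictly below the line through `p i` and `p j`. -/
noncomputable def kLines {n : ℕ} (k : ℕ) (p : Fin n → ℝ × ℝ) : ℕ :=
  {q : Fin n × Fin n | q.1 < q.2 ∧ (p q.1).1 ≠ (p q.2).1 ∧ (Below p q.1 q.2).ncard = k}.ncard

/-- The points are distinct and in general position. -/
def Position {n : ℕ} (p : Fin n → ℝ × ℝ) : Prop :=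
  Function.Injective p ∧ GeneralPosition (univ.image p)

/-- **Independent random points, different laws.** `p i`, `i < n`, are independent random points
of the plane.

(1) If the law of each `p i` is dominated by `ρ i × Lebesgue`, `ρ i` a finite measure on the line of
abscissas, then almost surely no three points are on a non-vertical line; for every `k` and `M`
the expected number of pairs whose line has exactly `k` points below, on the event that all
ordinates are at most `M` in absolute value, is at most `8 M ∑ ρ i (ℝ)`; if the `ρ i` have no atoms,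
the points are almost surely in general position and the same bound holds for the number of
bisectors.

(2) Gaussian noise: if `p i` is a point `c i` of the strip `|y| ≤ R` plus a normal vector with
covariance `σ ^ 2` times the identity, the points are almost surely in general position and the
expected number of bisectors (and of pairs with exactly `k` points below) is at most
`n (4 R / σ + 8 √(log n) + 2)`.

(3) If `p i` has a density at most `δ i` and lies in `[a i, a i + w i] × [-M, M]`, the points are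
almost surely in general position and these expected numbers are at most `8 M ∑ w i * δ i`. -/
theorem result {Ω : Type*} [MeasurableSpace Ω] (P : Measure Ω) [IsProbabilityMeasure P] {n : ℕ}
    (p : Fin n → Ω → ℝ × ℝ) (hp : ∀ i, Measurable (p i)) (hind : iIndepFun p P) :
    (∀ k, Measurable (fun ω => (kLines k (fun i => p i ω) : ℝ≥0∞))) ∧
    -- (1)
    (∀ ρ : Fin n → Measure ℝ, (∀ i, IsFiniteMeasure (ρ i)) →
      (∀ i, P.map (p i) ≤ (ρ i).prod volume) →
      (∀ᵐ ω ∂P, ∀ i j l : Fin n, l ≠ i → l ≠ j → (p i ω).1 ≠ (p j ω).1 →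
        (p l ω).2 ≠ (p i ω).2 + ((p j ω).2 - (p i ω).2) / ((p j ω).1 - (p i ω).1) *
          ((p l ω).1 - (p i ω).1)) ∧
      (∀ (k : ℕ) (M : ℝ), 0 ≤ M →
        ∫⁻ ω in {ω | ∀ i, |(p i ω).2| ≤ M}, (kLines k (fun i => p i ω) : ℝ≥0∞) ∂P ≤
          ENNReal.ofReal (8 * M) * ∑ i, ρ i Set.univ) ∧
      ((∀ i x, ρ i {x} = 0) →
        (∀ᵐ ω ∂P, Position (fun i => p i ω)) ∧
        AEMeasurable (fun ω => (bisectors (fun i => p i ω) : ℝ≥0∞)) P ∧
        ∀ M : ℝ, 0 ≤ M →
          ∫⁻ ω in {ω | ∀ i, |(p i ω).2| ≤ M}, (bisectors (fun i => p i ω) : ℝ≥0∞) ∂P ≤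
            ENNReal.ofReal (8 * M) * ∑ i, ρ i Set.univ)) ∧
    -- (2)
    (∀ (c : Fin n → ℝ × ℝ) (R σ : ℝ), 1 ≤ n → 0 < σ → (∀ i, |(c i).2| ≤ R) →
      (∀ i, P.map (p i) = (gaussianReal (c i).1 (Real.toNNReal (σ ^ 2))).prod
        (gaussianReal (c i).2 (Real.toNNReal (σ ^ 2)))) →
      (∀ᵐ ω ∂P, Position (fun i => p i ω)) ∧
      AEMeasurable (fun ω => (bisectors (fun i => p i ω) : ℝ≥0∞)) P ∧
      ∫⁻ ω, (bisectors (fun i => p i ω) : ℝ≥0∞) ∂P ≤
        ENNReal.ofReal (n * (4 * R / σ + 8 * √(Real.log n) + 2)) ∧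
      ∀ k, ∫⁻ ω, (kLines k (fun i => p i ω) : ℝ≥0∞) ∂P ≤
        ENNReal.ofReal (n * (4 * R / σ + 8 * √(Real.log n) + 2))) ∧
    -- (3)
    (∀ (M : ℝ) (δ a w : Fin n → ℝ), 0 ≤ M → (∀ i, 0 ≤ δ i) → (∀ i, 0 ≤ w i) →
      (∀ i, P.map (p i) ≤ ENNReal.ofReal (δ i) •
        (volume : Measure (ℝ × ℝ)).restrict (Set.Icc (a i) (a i + w i) ×ˢ Set.Icc (-M) M)) →
      (∀ᵐ ω ∂P, Position (fun i => p i ω)) ∧
      AEMeasurable (fun ω => (bisectors (fun i => p i ω) : ℝ≥0∞)) P ∧
      ∫⁻ ω, (bisectors (fun i => p i ω) : ℝ≥0∞) ∂P ≤ ENNReal.ofReal (8 * M * ∑ i, w i * δ i) ∧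
      ∀ k, ∫⁻ ω, (kLines k (fun i => p i ω) : ℝ≥0∞) ∂P ≤
        ENNReal.ofReal (8 * M * ∑ i, w i * δ i)) := by
  have hpos : (∀ᵐ ω ∂P, Pool.Agent.Run7.h249.SM.Good (fun i => p i ω)) →
      ∀ᵐ ω ∂P, Position (fun i => p i ω) := by
    intro h
    filter_upwards [h] with ω hω
    exact ⟨hω.inj, hω.general⟩
  refine ⟨fun k => Pool.Agent.Run7.h249.SM.measurable_count_rv p hp k, ?_, ?_, ?_⟩
  · intro ρ hρf hρ
    obtain ⟨h1, h2, h3⟩ := Pool.Agent.Run7.h249.SM.general P p hp hind ρ hρf hρ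
    refine ⟨h1, h2, fun h0 => ?_⟩
    obtain ⟨h4, h5⟩ := h3 h0
    exact ⟨hpos h4, Pool.Agent.Run7.h249.SM.aemeas_bis P p hp h4, h5⟩
  · intro c R σ hn hσ hc hl
    obtain ⟨h1, h2, h3⟩ := Pool.Agent.Run7.h249.SM.gaussian P p hp hind c hn hσ hc hl
    exact ⟨hpos h1, Pool.Agent.Run7.h249.SM.aemeas_bis P p hp h1, h3, h2⟩
  · intro M δ a w hM hδ hw hl
    obtain ⟨h1, h2, h3⟩ := Pool.Agent.Run7.h249.SM.bounded P p hp hind hM δ a w hδ hw hl
    exact ⟨hpos h1, Pool.Agent.Run7.h249.SM.aemeas_bis P p hp h1, h3, h2⟩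

end Pool.Agent.Results.MP_e17eac_co.SmoothedPoints
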